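import Pool.Agent.Zk47.C3.Side

/-!
# The characters over a character and over its partner
-/

set_option autoImplicit false
set_option linter.unusedSectionVars false
set_option linter.style.haveILetI false

open scoped BigOperators Classical

noncomputable section

namespace Pool.Agent.Zk54.C3

open Pool.Agent.Zk47.C3

open Pool.Agent.Helper884 Pool.Agent.H254R3.IN Pool.Agent.Q288.MB
open Pool.Agent.K3h3.KB Pool.Agent.K3h3.MK
open IC (Irr)
open Pool.Agent.K3h83.IN (ov wo wo_eq wo_congr fixes S1 S2 S3b G5 Tst mem_Tst range_le_Tst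
  mem_NN_subtype cod cod_coe)
open Pool.Agent.Zk54.MQ


theorem t_E (hB2 : StB2) (hB3 : StB3) (hF : StF) (hD : StD) : StE := by
  intro p hp G U Ω Ω' iG fG iU fU fΩ fΩ' aΩ P aΩ' m α π α₀ m₀ d s1 s3b τ hτ g hg θ θ₀ hθ hθ₀
    R₀ iR w
  have w0 : WE m₀ α₀ := hB3 P m α π α₀ m₀ d
  have hχ₀ : ∀ o, IsIrr (C2.gt τ π g o) := C2.gt_irr τ π hg
  have hθi : IsIrr θ := theta_irr (f := fun ω => g (π ω)) (fun ω => hg _) hθ
  have hθi' : IsIrr θ₀ := theta_irr (f := C2.gt τ π g) hχ₀ hθ₀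
  have hLn : m.range.Normal := d.h.normal
  have hr : m.range.subtype.range = m.range := Subgroup.range_subtype _
  have hn : m.range.subtype.range.Normal := by rw [hr]; exact hLn
  have hMn : m₀.range.Normal := w0.normal
  have hr' : m₀.range.subtype.range = m₀.range := Subgroup.range_subtype _
  have hn' : m₀.range.subtype.range.Normal := by rw [hr']; exact hMn
  obtain ⟨T, hTdef⟩ : ∃ T : Subgroup G, T = Tst m.range.subtype m.range.subtype_injective hn θ :=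
    ⟨_, rfl⟩
  have hT : ∀ x, x ∈ T ↔ fixes m.range.subtype θ x := fun x => by rw [hTdef]; exact mem_Tst
  obtain ⟨T₀, hT₀def⟩ : ∃ T₀ : Subgroup (Pool.Agent.K3h3.MK.NN P), T₀ = Tst m₀.range.subtype
      m₀.range.subtype_injective hn' θ₀ := ⟨_, rfl⟩
  have hT₀ : ∀ x, x ∈ T₀ ↔ fixes m₀.range.subtype θ₀ x := fun x => by
    rw [hT₀def]; exact mem_Tst
  have hET : m.range ≤ T := by
    rw [hTdef]
    have := range_le_Tst m.range.subtype m.range.subtype_injective hn hθi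
    rwa [hr] at this
  have hET₀ : m₀.range ≤ T₀ := by
    rw [hT₀def]
    have := range_le_Tst m₀.range.subtype m₀.range.subtype_injective hn' hθi'
    rwa [hr'] at this
  have hETr : m.range.subtype.range ≤ T := by rw [hr]; exact hET
  have hETr₀ : m₀.range.subtype.range ≤ T₀ := by rw [hr']; exact hET₀
  have hfix2 := hF P m α π α₀ m₀ d τ g hg θ θ₀ hθ hθ₀
  have hTT₀ : ∀ x : Pool.Agent.K3h3.MK.NN P, x ∈ T₀ ↔ (x : G) ∈ T := fun x => by
    rw [hT₀, hT, (hfix2 x).1, (hfix2 x).2]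
  have hTT₀' : T₀ = T.subgroupOf (Pool.Agent.K3h3.MK.NN P) := by
    ext x
    rw [hTT₀, Subgroup.mem_subgroupOf]
  have e1 := s1 R₀ w m.range G m.range.subtype m.range.subtype_injective hn θ hθi T hT
    (cod m.range.subtype T hETr) fun _ => rfl
  have e2 := s1 R₀ w m₀.range (Pool.Agent.K3h3.MK.NN P) m₀.range.subtype
    m₀.range.subtype_injective hn' θ₀ hθi' T₀ hT₀
    (cod m₀.range.subtype T₀ hETr₀) fun _ => rfl
  have hidx : T₀.index = T.index := by
    rw [idx_eq hLn d.hs hET, hTT₀']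
    rfl
  rw [hidx] at e2
  let L : Subgroup T := m.range.subgroupOf T
  let N : Subgroup T := (Pool.Agent.K3h3.MK.NN P).subgroupOf T
  have hNB : ∀ x : N, ((x : T) : G) ∈ Pool.Agent.K3h3.MK.NN P := fun x => Subgroup.mem_subgroupOf.mp x.2
  let ι : N →* Pool.Agent.K3h3.MK.NN P :=
    { toFun := fun x => ⟨x, hNB x⟩
      map_one' := rfl
      map_mul' := fun _ _ => rfl }
  letI actN : MulAction N Ω' := MulAction.compHom Ω' ι
  have hπN : ∀ (x : N) (ω : Ω), π (x • ω) = x • π ω := fun x ω => d.q.equi (ι x) ω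
  have hLN : L ⊔ N = ⊤ := by
    rw [eq_top_iff]
    rintro ⟨x, hx⟩ -
    have hx' : x ∈ m.range ⊔ Pool.Agent.K3h3.MK.NN P := by rw [d.hs]; trivial
    haveI := hLn
    obtain ⟨l, hl, y, hy, rfl⟩ := Subgroup.mem_sup_of_normal_left.mp hx'
    have hyT : y ∈ T := (Subgroup.mul_mem_cancel_left _ (hET hl)).mp hx
    exact Subgroup.mul_mem_sup (x := (⟨l, hET hl⟩ : T)) (y := (⟨y, hyT⟩ : T))
      (Subgroup.mem_subgroupOf.mpr hl) (Subgroup.mem_subgroupOf.mpr hy)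
  have hginv : ∀ (x : N) o v, g (x • o) (α₀ (ι x) o v) = g o v := fun x =>
    (hfix2 (ι x)).1.mp ((hT _).mp (x : T).2)
  -- the local operators
  obtain ⟨n, R, A, l, htr, hA, hl0, hlm, hin⟩ := hD (H := N) (fun x o => α₀ (ι x) o)
    (fun x y o => by
      have := w0.mul (ι x) (ι y) o
      rw [← map_mul] at this
      exact this) g hg hginv
  have hK : ∀ (x : N) o, C2.K π (x • o) = C2.K π o := fun x o => C2.K_smul d.q (ι x) o
  have hcop : ∀ o, Nat.Coprime (C2.K π o) (Nat.card U) := C2.K_coprime d.q d.hU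
  have hprod : ∀ z : Ω' → ℂ, (∀ o, z o ^ (Nat.card U ^ 2) = 1) →
      ∏ ω, z (π ω) = ∏ o, τ (C2.K π o) (z o) := by
    intro z hz
    rw [C2.prod_fib]
    exact Finset.prod_congr rfl fun o _ => (hτ _ (hcop o) _ (hz o)).symm
  -- the homomorphisms
  have hmT : ∀ v : Ω → U, m v ∈ T := fun v => hET ⟨v, rfl⟩
  let m₁ : (Ω → U) →* L :=
    { toFun := fun v => ⟨⟨m v, hmT v⟩, Subgroup.mem_subgroupOf.mpr ⟨v, rfl⟩⟩
      map_one' := Subtype.ext (Subtype.ext (map_one m))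
      map_mul' := fun v w => Subtype.ext (Subtype.ext (map_mul m v w)) }
  have hm₁ : Function.Surjective m₁ := by
    rintro ⟨⟨x, hx⟩, hx2⟩
    obtain ⟨v, hv⟩ := Subgroup.mem_subgroupOf.mp hx2
    exact ⟨v, Subtype.ext (Subtype.ext hv)⟩
  have hm0 : ∀ v : Ω' → U, m (fun ω => v (π ω)) ∈ Pool.Agent.K3h3.MK.NN P := fun v => by
    rw [← d.hm₀]
    exact (m₀ v).2
  let m₂ : (Ω' → U) →* (L ⊓ N : Subgroup T) :=
    { toFun := fun v => ⟨⟨m (fun ω => v (π ω)), hmT _⟩, Subgroup.mem_subgroupOf.mpr ⟨_, rfl⟩,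
        Subgroup.mem_subgroupOf.mpr (hm0 v)⟩
      map_one' := Subtype.ext (Subtype.ext (map_one m))
      map_mul' := fun v w => Subtype.ext (Subtype.ext (map_mul m _ _)) }
  have hm₂ : Function.Surjective m₂ := by
    rintro ⟨⟨x, hx⟩, hx2, hx3⟩
    obtain ⟨v, hv⟩ := Subgroup.mem_subgroupOf.mp hx2
    have hvN : m v ∈ Pool.Agent.K3h3.MK.NN P := by
      rw [hv]
      exact Subgroup.mem_subgroupOf.mp hx3
    obtain ⟨v', h1, h2⟩ := hB2 m α P d.h d.hU d.hP v hvN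
    obtain ⟨v'', rfl⟩ := C2.exists_cmp d.q v' h2
    exact ⟨v'', Subtype.ext (Subtype.ext (h1.trans hv))⟩
  let eL : L ≃* m.range := Subgroup.subgroupOfEquivOfLe hET
  have hm₀r : ∀ x : Pool.Agent.K3h3.MK.NN P, x ∈ m₀.range ↔ (x : G) ∈ m.range := by
    intro x
    constructor
    · rintro ⟨v, rfl⟩
      rw [d.hm₀]
      exact ⟨_, rfl⟩
    · rintro ⟨v, hv⟩
      obtain ⟨v', h1, h2⟩ := hB2 m α P d.h d.hU d.hP v (by rw [hv]; exact x.2)
      obtain ⟨v'', rfl⟩ := C2.exists_cmp d.q v' h2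
      exact ⟨v'', Subtype.ext (by rw [d.hm₀, h1, hv])⟩
  let eM : (L ⊓ N : Subgroup T) ≃* m₀.range :=
    { toFun := fun x => ⟨⟨x.1.1, Subgroup.mem_subgroupOf.mp x.2.2⟩,
        (hm₀r _).mpr (Subgroup.mem_subgroupOf.mp x.2.1)⟩
      invFun := fun x => ⟨⟨x.1.1, hET ((hm₀r _).mp x.2)⟩,
        Subgroup.mem_subgroupOf.mpr ((hm₀r _).mp x.2),
        Subgroup.mem_subgroupOf.mpr x.1.2⟩
      left_inv := fun _ => rfl
      right_inv := fun _ => rfl
      map_mul' := fun _ _ => rfl }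
  have heM : ∀ v, eM (m₂ v) = ⟨m₀ v, ⟨v, rfl⟩⟩ := fun v =>
    Subtype.ext (Subtype.ext (d.hm₀ v).symm)
  have hαN : ∀ (x : N) (ω : Ω), α ((x : T) : G) ω = α₀ (ι x) (π ω) := fun x ω => d.hα₀ (ι x) ω
  obtain ⟨V, _, _, _, σ, W, hσi, hσc, hWm, hWc, hWs⟩ := side3 (N := N) m₁ hm₁
    (by
      intro v hv ω
      exact d.h.ker v (congrArg (fun x : L => ((x : T) : G)) hv) ω)
    (fun ω => n (π ω)) (fun ω => R (π ω)) (fun ω => g (π ω)) (fun ω => hg _)
    (fun ω u => htr _ u) (fun x => θ (eL x))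
    (Pool.Agent.Q90.WR.irr_comp eL hθi) (fun v => hθ v)
    (fun x ω ω' => A x (π ω) (π ω')) (fun x ω v => α₀ (ι x) (π ω) v)
    (by
      rintro x ω _ rfl u
      exact hA x (π ω) (π (x • ω)) (hπN x ω).symm u)
    (fun x y ω => l x y (π ω))
    (by
      rintro x y ω _ _ rfl rfl
      exact hlm x y (π ω) (π (y • ω)) (π (x • y • ω)) (hπN y ω).symm (hπN x _).symm)
  obtain ⟨V', _, _, _, σ', W', hσi', hσc', hWm', hWc', hWs'⟩ := side3 (N := N) m₂ hm₂
    (by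
      intro v hv o
      obtain ⟨ω, rfl⟩ := d.q.surj o
      exact d.h.ker _ (congrArg (fun x : (L ⊓ N : Subgroup T) => ((x : T) : G)) hv) ω)
    n (fun o => ((τ (C2.K π o) : ℂ →+* ℂ).mapMatrix : _ →+* _).toMonoidHom.comp (R o))
    (C2.gt τ π g) hχ₀
    (fun o u => by
      change Matrix.trace ((R o u).map (τ (C2.K π o))) = τ (C2.K π o) (g o u)
      rw [← htr]
      exact (AddMonoidHom.map_trace (τ (C2.K π o) : ℂ →+* ℂ).toAddMonoidHom (R o u)).symm)
    (fun x => θ₀ (eM x))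
    (Pool.Agent.Q90.WR.irr_comp eM hθi') (fun v => by rw [heM]; exact hθ₀ v)
    (fun x o o' => (A x o o').map (τ (C2.K π o))) (fun x o v => α₀ (ι x) o v)
    (by
      rintro x o _ rfl u
      change (A x o (x • o)).map (τ (C2.K π o)) * (R o u).map (τ (C2.K π o)) =
        (R (x • o) (α₀ (ι x) o u)).map (τ (C2.K π (x • o))) * (A x o (x • o)).map (τ (C2.K π o))
      rw [hK x o]
      have h1 := congrArg (fun M => M.map (τ (C2.K π o))) (hA x o (x • o) rfl u)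
      simp only [Matrix.map_mul] at h1
      exact h1)
    (fun x y o => τ (C2.K π o) (l x y o))
    (by
      rintro x y o _ _ rfl rfl
      change (A x (y • o) (x • y • o)).map (τ (C2.K π (y • o))) *
        (A y o (y • o)).map (τ (C2.K π o)) = τ (C2.K π o) (l x y o) •
          (A (x * y) o (x • y • o)).map (τ (C2.K π o))
      rw [hK y o]
      have h1 := congrArg (fun M => M.map (τ (C2.K π o))) (hlm x y o (y • o) (x • y • o) rfl rfl)
      simp only [Matrix.map_mul] at h1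
      rw [h1]
      ext i j
      simp)
  -- the elements of `L ⊓ N`
  have hex : ∀ e : (L ⊓ N : Subgroup T), ∃ (v : Ω' → U) (r : Ω' → ℂ), m₂ v = e ∧
      (∀ o : Ω', (⟨e, e.2.2⟩ : N) • o = o) ∧ (∀ o, r o ≠ 0) ∧ (∀ o, r o ^ (Nat.card U ^ 2) = 1) ∧
      ∀ o, A ⟨e, e.2.2⟩ o o = r o • R o (v o) := by
    intro e
    obtain ⟨v, hv⟩ := hm₂ e
    have e5 : ι ⟨e, e.2.2⟩ = m₀ v := by
      apply Subtype.ext
      rw [d.hm₀]
      exact (congrArg (fun x : (L ⊓ N : Subgroup T) => ((x : T) : G)) hv).symm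
    have h0 : ∀ o : Ω', (⟨e, e.2.2⟩ : N) • o = o := by
      intro o
      change ι ⟨e, e.2.2⟩ • o = o
      rw [e5]
      exact w0.triv v o
    have h1 : ∀ o y, α₀ (ι ⟨e, e.2.2⟩) o y = v o * y * (v o)⁻¹ := by
      intro o y
      rw [e5]
      exact w0.inn v o y
    choose r hr1 hr2 hr3 using fun o => hin ⟨e, e.2.2⟩ o (v o) (h0 o) (h1 o)
    exact ⟨v, r, hv, h0, hr1, hr2, hr3⟩
  choose ve re hve htr' hre0 hre1 hre using hex
  have htriv : ∀ (e : (L ⊓ N : Subgroup T)) (ω : Ω), (⟨e, e.2.2⟩ : N) • ω = ω := by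
    intro e ω
    have e5 : ((e : T) : G) = m (fun ω => ve e (π ω)) :=
      (congrArg (fun x : (L ⊓ N : Subgroup T) => ((x : T) : G)) (hve e)).symm
    change ((e : T) : G) • ω = ω
    rw [e5]
    exact d.h.triv _ ω
  have hc : ∀ e : (L ⊓ N : Subgroup T), W ⟨e, e.2.2⟩ =
      (∏ ω, re e (π ω)) • σ ⟨e, e.2.1⟩ := by
    intro e
    have := hWs ⟨e, e.2.2⟩ (fun ω => ve e (π ω)) (fun ω => re e (π ω)) (htriv e)
      (fun ω => hre e (π ω))
    rw [this]
    congr 2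
    exact congrArg (fun x : (L ⊓ N : Subgroup T) => (⟨x, x.2.1⟩ : L)) (hve e)
  have hc' : ∀ e : (L ⊓ N : Subgroup T), W' ⟨e, e.2.2⟩ = (∏ ω, re e (π ω)) • σ' e := by
    intro e
    have := hWs' ⟨e, e.2.2⟩ (ve e) (fun o => τ (C2.K π o) (re e o)) (htr' e) (fun o => by
      change (A ⟨e, e.2.2⟩ o o).map (τ (C2.K π o)) =
        τ (C2.K π o) (re e o) • (R o (ve e o)).map (τ (C2.K π o))
      rw [hre]
      ext i j
      simp)
    rw [this, hve, hprod (re e) (hre1 e)]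
  have hγ : ∀ x y : N, (∏ ω, l x y (π ω)) ≠ 0 := fun x y =>
    Finset.prod_ne_zero_iff.mpr fun ω _ => (hl0 _ _ _).1
  have hWm'' : ∀ x y, W' x ∘ₗ W' y = (∏ ω, l x y (π ω)) • W' (x * y) := by
    intro x y
    rw [hprod (l x y) fun o => (hl0 x y o).2]
    exact hWm' x y
  have hr1 : (∏ ω, re 1 (π ω)) ≠ 0 := Finset.prod_ne_zero_iff.mpr fun ω _ => hre0 _ _
  have hWi : ∀ x, Function.Bijective (W x) := by
    refine bij_W W _ hγ hWm _ hr1 ?_
    have := hc 1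
    have e6 : (⟨((1 : (L ⊓ N : Subgroup T)) : T), (1 : (L ⊓ N : Subgroup T)).2.1⟩ : L) = 1 := rfl
    rw [e6, map_one] at this
    exact this
  have hWi' : ∀ x, Function.Bijective (W' x) := by
    refine bij_W W' _ hγ hWm'' _ hr1 ?_
    have := hc' 1
    rw [map_one] at this
    exact this
  have hW : ∀ (x : N) (y y' : L), (x : T) * y * (x : T)⁻¹ = y' →
      W x ∘ₗ σ y = σ y' ∘ₗ W x := by
    intro x y y' hy
    obtain ⟨v, rfl⟩ := hm₁ y
    have h1 := hWc x v (fun ω => α ((x : T) : G) (x⁻¹ • ω) (v (x⁻¹ • ω))) (fun ω => by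
      rw [inv_smul_smul, hαN])
    rw [h1]
    congr 2
    apply Subtype.ext
    rw [← hy]
    exact Subtype.ext (d.h.eqv _ v).symm
  have hW' : ∀ (x : N) (y y' : (L ⊓ N : Subgroup T)), (x : T) * y * (x : T)⁻¹ = y' →
      W' x ∘ₗ σ' y = σ' y' ∘ₗ W' x := by
    intro x y y' hy
    obtain ⟨v, rfl⟩ := hm₂ y
    have h1 := hWc' x v (fun o => α₀ (ι x) (x⁻¹ • o) (v (x⁻¹ • o))) (fun o => by
      rw [inv_smul_smul])
    rw [h1]
    congr 2
    apply Subtype.ext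
    rw [← hy]
    have h2 := congrArg (fun y : Pool.Agent.K3h3.MK.NN P => (y : G)) (w0.eqv (ι x) v)
    have h3 := d.hm₀ v
    have h4 := d.hm₀ (fun o => α₀ (ι x) ((ι x)⁻¹ • o) (v ((ι x)⁻¹ • o)))
    refine Subtype.ext ?_
    change m _ = ((x : T) : G) * m _ * (((x : T) : G))⁻¹
    rw [← h3]
    exact h4.symm.trans h2.symm
  obtain ⟨κ, hκ1, hκ2⟩ := triple_iso s3b L N (hLn.subgroupOf T) hLN σ hσi σ' hσi' W W' hWi hWi'
    hW hW' (fun x y => ∏ ω, l x y (π ω)) hWm hWm'' (fun e => ∏ ω, re e (π ω)) hc hc' w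
  have nd1 : ndeg σ.character = ndeg θ := by
    rw [hσc]
    change ⌊(θ (eL 1)).re⌋₊ = _
    rw [map_one]
    rfl
  have nd2 : ndeg σ'.character = ndeg θ₀ := by
    rw [hσc']
    change ⌊(θ₀ (eM 1)).re⌋₊ = _
    rw [map_one]
    rfl
  rw [nd1, hσc] at hκ1
  rw [nd2, hσc'] at hκ2
  have t1 : wo w (cod m.range.subtype T hETr) θ = wo w L.subtype fun x => θ (eL x) := by
    refine wo_congr w eL.symm (MulEquiv.refl T) _ _ (fun l => ?_) _ _ (fun l => ?_)
    · exact Subtype.ext rfl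
    · simp
  let eT : T₀ ≃* N :=
    { toFun := fun x => ⟨⟨(x : Pool.Agent.K3h3.MK.NN P), (hTT₀ x).mp x.2⟩, Subgroup.mem_subgroupOf.mpr (x : Pool.Agent.K3h3.MK.NN P).2⟩
      invFun := fun x => ⟨ι x, (hTT₀ _).mpr (x : T).2⟩
      left_inv := fun _ => rfl
      right_inv := fun _ => rfl
      map_mul' := fun _ _ => rfl }
  have t2 : wo w (cod m₀.range.subtype T₀ hETr₀) θ₀ =
      wo w (Subgroup.inclusion (inf_le_right : L ⊓ N ≤ N)) fun x => θ₀ (eM x) := by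
    refine wo_congr w eM.symm eT _ _ (fun l => ?_) _ _ (fun l => ?_)
    · exact Subtype.ext rfl
    · simp
  exact ⟨T.index, κ, by rw [e1, t1, hκ1], by rw [e2, t2, hκ2]⟩

end Pool.Agent.Zk54.C3
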