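import Pool.Agent.Zk47.C3.Def

/-!
# The comparison of `G` and `N_G(P)` for a factor of order prime to `p`
-/

set_option autoImplicit false
set_option linter.unusedSectionVars false
set_option linter.style.haveILetI false

open scoped BigOperators Classical

noncomputable section

namespace Pool.Agent.Zk54.C3

open Pool.Agent.H254R3.IN hiding NN
open Pool.Agent.Helper884 Pool.Agent.Q288.MB
open Pool.Agent.K3h3.KB Pool.Agent.K3h3.MK
open IC (Irr)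
open Pool.Agent.K3h83.IN (ov wo wo_eq wo_congr fixes S1 S2 S3b G5 Tst mem_Tst range_le_Tst mem_NN_subtype
  cl_congr)
open Pool.Agent.Zk54.MQ Pool.Agent.Zk54.MQ.C2
open Pool.Agent.Zk47.C3

theorem exists_tau2 (U : Type) [Group U] [Finite U] : ∃ τ : ℕ → (ℂ ≃+* ℂ),
    ∀ k, Nat.Coprime k (Nat.card U) → ∀ z : ℂ, z ^ (Nat.card U ^ 2) = 1 → τ k z = z ^ k := by
  have : ∀ k, ∃ σ : ℂ ≃+* ℂ, Nat.Coprime k (Nat.card U) →
      ∀ z : ℂ, z ^ (Nat.card U ^ 2) = 1 → σ z = z ^ k := by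
    intro k
    by_cases hk : Nat.Coprime k (Nat.card U)
    · obtain ⟨σ, hσ⟩ := Pool.Agent.K3h85.IN.exists_pow_aut (Nat.card U ^ 2) k
        (pow_pos Nat.card_pos 2) (hk.pow_right 2)
      exact ⟨σ, fun _ => hσ⟩
    · exact ⟨RingEquiv.refl ℂ, fun h => absurd h hk⟩
  choose τ hτ using this
  exact ⟨τ, hτ⟩

theorem isTau_of {U : Type} [Group U] [Finite U] {τ : ℕ → (ℂ ≃+* ℂ)}
    (h : ∀ k, Nat.Coprime k (Nat.card U) → ∀ z : ℂ, z ^ (Nat.card U ^ 2) = 1 → τ k z = z ^ k) :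
    IsTau U τ := by
  intro k hk z hz
  refine h k hk z ?_
  rw [sq, pow_mul, hz, one_pow]

theorem t_Z (hA : StA) (hB1 : StB1) (hB3 : StB3) (hC : StC) (hE : StE) (hF : StF) : StZ := by
  intro p _ G U Ω _ _ _ _ _ _ m₀' α' s1 s2 s3b h' hU hord P hs'
  obtain ⟨m, α, h, hr', hP, hn'⟩ := hA m₀' α' h' hord P
  have hs : m.range ⊔ NN P = ⊤ := by rw [hr']; exact hs'
  clear hs' hr' h' hord
  obtain ⟨Ω', _, _, π, q⟩ := exists_quot Ω P
  obtain ⟨α₀, hα₀⟩ : ∃ α₀ : NN P → Ω' → MulAut U, ∀ (n : NN P) (ω : Ω),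
      α (n : G) ω = α₀ n (π ω) := by
    refine ⟨fun n o => α (n : G) (Function.surjInv q.surj o), fun n ω => ?_⟩
    obtain ⟨x, hx, h1⟩ := q.orb _ _ (Function.surjInv_eq q.surj (π ω))
    change α n ω = α n (Function.surjInv q.surj (π ω))
    rw [← hn' n n.2 x hx (Function.surjInv q.surj (π ω)), h1]
  obtain ⟨mN, hmN⟩ : ∃ mN : (Ω' → U) →* NN P, ∀ v : Ω' → U,
      ((mN v : NN P) : G) = m (fun ω => v (π ω)) :=
    ⟨(m.comp (cmp U π)).codRestrict (NN P) fun v => hB1 m α P h hP _ (fun x hx ω => by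
      change v (π (x • ω)) = v (π ω)
      rw [q.inv x hx]), fun v => rfl⟩
  have d : CD P m α π α₀ mN := ⟨h, hU, hP, q, hα₀, hs, hmN⟩
  have hN : WE mN α₀ := hB3 P m α π α₀ mN d
  obtain ⟨τ, hτ2⟩ := exists_tau2 U
  have hτ : IsTau U τ := isTau_of hτ2
  have hker := hC P m α π α₀ mN d τ hτ
  have hfix := hF P m α π α₀ mN d τ
  have hwo := hE P m α π α₀ mN d s1 s3b τ hτ2
  have hQN : (P : Subgroup G) ≤ NN P := Subgroup.le_normalizer
  have hr : m.range.subtype.range = m.range := Subgroup.range_subtype _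
  have hrB : mN.range.subtype.range = mN.range := Subgroup.range_subtype _
  have hn : m.range.subtype.range.Normal := by rw [hr]; exact h.normal
  have hnB : mN.range.subtype.range.Normal := by rw [hrB]; exact hN.normal
  haveI := Fintype.ofFinite m.range
  haveI := Fintype.ofFinite mN.range
  have e1 := s2 p m.range G m.range.subtype m.range.subtype_injective hn P
  have e2 := s2 p mN.range (NN P) mN.range.subtype
    mN.range.subtype_injective hnB (P.subtype hQN)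
  have c1 : Nat.card (NN (P.subtype hQN)) = Nat.card (NN P) := by
    refine Nat.card_congr
      { toFun := fun x => ⟨x.1.1, (mem_NN_subtype P hQN x.1).mp x.2⟩
        invFun := fun x => ⟨⟨x.1, x.2⟩, (mem_NN_subtype P hQN ⟨x.1, x.2⟩).mpr x.2⟩
        left_inv := fun _ => rfl
        right_inv := fun _ => rfl }
  have ext1 : ∀ θ₁ θ₂ : m.range → ℂ, (∀ u, θ₁ ⟨m u, ⟨u, rfl⟩⟩ = θ₂ ⟨m u, ⟨u, rfl⟩⟩) →
      θ₁ = θ₂ := by
    intro θ₁ θ₂ H
    funext x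
    obtain ⟨_, u, rfl⟩ := x
    exact H u
  have ext2 : ∀ θ₁ θ₂ : mN.range → ℂ,
      (∀ u, θ₁ ⟨mN u, ⟨u, rfl⟩⟩ = θ₂ ⟨mN u, ⟨u, rfl⟩⟩) → θ₁ = θ₂ := by
    intro θ₁ θ₂ H
    funext x
    obtain ⟨_, u, rfl⟩ := x
    exact H u
  have clE : ∀ (g : Ω' → U → ℂ) (θ : m.range → ℂ) (θ' : mN.range → ℂ), (∀ o, IsIrr (g o)) →
      (∀ u, θ ⟨m u, ⟨u, rfl⟩⟩ = ∏ ω, g (π ω) (u ω)) →
      (∀ v, θ' ⟨mN v, ⟨v, rfl⟩⟩ = ∏ o, gt τ π g o (v o)) → cl p (ndeg θ) = cl p (ndeg θ') := by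
    intro g θ θ' hg h1 h2
    rw [ndeg_theta (fun ω => hg (π ω)) h1, ndeg_theta (gt_irr τ π hg) h2]
    refine cl_congr p ?_
    have h1 : ∏ ω, ndeg (g (π ω)) = ∏ o, ndeg (g o) ^ K π o := prod_fib π fun o => ndeg (g o)
    rw [h1, Nat.cast_prod, Nat.cast_prod]
    refine Finset.prod_congr rfl fun o _ => ?_
    obtain ⟨i, hi⟩ := q.pow o
    have h2 : ndeg (gt τ π g o) = ndeg (g o) := Pool.Agent.K3h85.IN.ndeg_gal (hg o) (τ (K π o))
    rw [h2, Nat.cast_pow, K, hi, ZMod.pow_card_pow]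
  have fxi : ∀ (g : Ω' → U → ℂ) (θ : m.range → ℂ) (θ' : mN.range → ℂ), (∀ o, IsIrr (g o)) →
      (∀ u, θ ⟨m u, ⟨u, rfl⟩⟩ = ∏ ω, g (π ω) (u ω)) →
      (∀ v, θ' ⟨mN v, ⟨v, rfl⟩⟩ = ∏ o, gt τ π g o (v o)) → ∀ n : NN P,
      (fixes m.range.subtype θ (n : G) ↔ fixes mN.range.subtype θ' n) := by
    intro g θ θ' hg h1 h2 n
    obtain ⟨k1, k2⟩ := hfix g hg θ θ' h1 h2 n
    rw [k1, k2]
  have woE : ∀ (g : Ω' → U → ℂ) (θ : m.range → ℂ) (θ' : mN.range → ℂ), (∀ o, IsIrr (g o)) →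
      (∀ u, θ ⟨m u, ⟨u, rfl⟩⟩ = ∏ ω, g (π ω) (u ω)) →
      (∀ v, θ' ⟨mN v, ⟨v, rfl⟩⟩ = ∏ o, gt τ π g o (v o)) →
      wo (cl p) m.range.subtype θ = wo (cl p) mN.range.subtype θ' := by
    intro g θ θ' hg h1 h2
    obtain ⟨k, κ, k1, k2⟩ := hwo g hg θ θ' h1 h2 (cl p)
    rw [k1, k2, clE g θ θ' hg h1 h2]
  have key : ∑ θ ∈ (Irr m.range).filter (fun θ => ∀ x ∈ P, fixes m.range.subtype θ x),
      (Nat.card {x : G // x ∈ NN P ∧ fixes m.range.subtype θ x} : RR p) *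
        wo (cl p) m.range.subtype θ =
      ∑ θ ∈ (Irr mN.range).filter
        (fun θ => ∀ x ∈ P.subtype hQN, fixes mN.range.subtype θ x),
      (Nat.card {x : NN P // x ∈ NN (P.subtype hQN) ∧
        fixes mN.range.subtype θ x} : RR p) * wo (cl p) mN.range.subtype θ := by
    have fx : ∀ (g : Ω' → U → ℂ) (θ : m.range → ℂ) (θ' : mN.range → ℂ), (∀ o, IsIrr (g o)) →
        (∀ u, θ ⟨m u, ⟨u, rfl⟩⟩ = ∏ ω, g (π ω) (u ω)) →
        (∀ v, θ' ⟨mN v, ⟨v, rfl⟩⟩ = ∏ o, gt τ π g o (v o)) →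
        ((∀ x ∈ P, fixes m.range.subtype θ x) ↔
          ∀ x ∈ P.subtype hQN, fixes mN.range.subtype θ' x) := by
      intro g θ θ' hg h1 h2
      constructor
      · intro H x hx
        exact (fxi g θ θ' hg h1 h2 x).mp (H x hx)
      · intro H x hx
        exact (fxi g θ θ' hg h1 h2 ⟨x, hQN hx⟩).mpr (H ⟨x, hQN hx⟩ hx)
    refine sum_rel _ _ (fun θ θ' => ∃ g : Ω' → U → ℂ, (∀ o, IsIrr (g o)) ∧
        (∀ u, θ ⟨m u, ⟨u, rfl⟩⟩ = ∏ ω, g (π ω) (u ω)) ∧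
        (∀ v, θ' ⟨mN v, ⟨v, rfl⟩⟩ = ∏ o, gt τ π g o (v o))) _ _ ?_ ?_ ?_ ?_ ?_
    · intro θ hθ
      rw [Finset.mem_filter] at hθ
      obtain ⟨f, hf, hf2⟩ := exists_f (mem_Irr.mp hθ.1)
      have hc : ∀ y ∈ P, ∀ ω, f (y • ω) = f ω := by
        intro y hy ω
        have h1 := (fixes_gen m y (α y) (h.eqv y) hf hf2).mp (hθ.2 y hy) ω
        funext v
        rw [← h1 v, hP y hy, MulAut.one_apply]
      obtain ⟨g, rfl⟩ := exists_cmp q f hc
      have hg : ∀ o, IsIrr (g o) := by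
        intro o
        obtain ⟨ω, rfl⟩ := q.surj o
        exact hf ω
      have hk : ∀ u, m u = 1 → ∏ ω, g (π ω) (u ω) = ∏ ω, g (π ω) 1 := by
        intro u hu
        have h1 := hf2 u
        have h2 := hf2 1
        have e3 : (⟨m u, ⟨u, rfl⟩⟩ : m.range) = ⟨m 1, ⟨1, rfl⟩⟩ :=
          Subtype.ext (hu.trans (map_one m).symm)
        rw [← h1, e3, h2]
        rfl
      obtain ⟨θ', hθ'⟩ := exists_thetaG mN hN.ker (gt_irr τ π hg) ((hker g hg).mp hk)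
      refine ⟨θ', ?_, g, hg, hf2, hθ'⟩
      rw [Finset.mem_filter]
      exact ⟨mem_Irr.mpr (theta_irr (gt_irr τ π hg) hθ'), (fx g θ θ' hg hf2 hθ').mp hθ.2⟩
    · intro θ' hθ'
      rw [Finset.mem_filter] at hθ'
      obtain ⟨f, hf, hf2⟩ := exists_f (mem_Irr.mp hθ'.1)
      obtain ⟨g, hg0⟩ : ∃ g : Ω' → U → ℂ, g = fun o u => (τ (K π o)).symm (f o u) := ⟨_, rfl⟩
      have hgf : gt τ π g = f := by
        funext o u
        rw [hg0]
        exact RingEquiv.apply_symm_apply _ _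
      have hg : ∀ o, IsIrr (g o) := by
        intro o
        rw [hg0]
        exact Pool.Agent.Q90.WR.irr_gal (τ (K π o)).symm (hf o)
      subst hgf
      have hk : ∀ u, mN u = 1 → ∏ o, gt τ π g o (u o) = ∏ o, gt τ π g o 1 := by
        intro u hu
        have h1 := hf2 u
        have h2 := hf2 1
        have e3 : (⟨mN u, ⟨u, rfl⟩⟩ : mN.range) = ⟨mN 1, ⟨1, rfl⟩⟩ :=
          Subtype.ext (hu.trans (map_one _).symm)
        rw [← h1, e3, h2]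
        rfl
      obtain ⟨θ, hθ⟩ := exists_thetaG m h.ker (fun ω => hg (π ω)) ((hker g hg).mpr hk)
      refine ⟨θ, ?_, g, hg, hθ, hf2⟩
      rw [Finset.mem_filter]
      exact ⟨mem_Irr.mpr (theta_irr (fun ω => hg (π ω)) hθ), (fx g θ θ' hg hθ hf2).mpr hθ'.2⟩
    · rintro θ θ₁ θ₂ ⟨g₁, i₁, a₁, b₁⟩ ⟨g₂, i₂, a₂, b₂⟩
      have h1 : (fun ω => g₁ (π ω)) = fun ω => g₂ (π ω) :=
        f_unique (fun ω => i₁ _) (fun ω => i₂ _) fun u => by rw [← a₁, ← a₂]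
      have h2 : g₁ = g₂ := by
        funext o
        obtain ⟨ω, rfl⟩ := q.surj o
        exact congrFun h1 ω
      apply ext2
      intro u
      rw [b₁, b₂, h2]
    · rintro θ₁ θ₂ θ' ⟨g₁, i₁, a₁, b₁⟩ ⟨g₂, i₂, a₂, b₂⟩
      have h1 : gt τ π g₁ = gt τ π g₂ :=
        f_unique (gt_irr τ π i₁) (gt_irr τ π i₂) fun u => by rw [← b₁, ← b₂]
      have h2 : g₁ = g₂ := gt_inj τ π h1
      apply ext1
      intro u
      rw [a₁, a₂, h2]
    · rintro θ θ' ⟨g, i, a, b⟩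
      rw [woE g θ θ' i a b]
      congr 2
      refine Nat.card_congr
        { toFun := fun x => ⟨⟨x.1, x.2.1⟩, (mem_NN_subtype P hQN ⟨x.1, x.2.1⟩).mpr x.2.1,
            (fxi g θ θ' i a b ⟨x.1, x.2.1⟩).mp x.2.2⟩
          invFun := fun x => ⟨x.1.1, (mem_NN_subtype P hQN x.1).mp x.2.1,
            (fxi g θ θ' i a b x.1).mpr x.2.2⟩
          left_inv := fun _ => rfl
          right_inv := fun _ => rfl }
  rw [c1, ← key, ← e1] at e2
  exact (natCast_mul_inj p Nat.card_pos.ne' e2).symm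

end Pool.Agent.Zk54.C3
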